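import Pool.Agent.Lib_helper48.GU.Defs

open Cardinal Set Filter

universe u

namespace Pool.Agent.GU48

variable {K : Type u} {W : Filter K} {κ : Cardinal.{u}}

lemma pos_iff_frequently {X : Set K} : Pos W X ↔ ∃ᶠ x in W, x ∈ X := Iff.rfl

lemma not_pos_iff {X : Set K} : ¬ Pos W X ↔ ∀ᶠ x in W, x ∉ X := by
  unfold Pos; rw [not_not]; rfl

lemma Pos.mono {X Y : Set K} (h : Pos W X) (hXY : X ⊆ Y) : Pos W Y :=
  fun hY => h (mem_of_superset hY (compl_subset_compl.2 hXY))

lemma Pos.inter_mem {X A : Set K} (h : Pos W X) (hA : A ∈ W) : Pos W (X ∩ A) := by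
  rw [pos_iff_frequently] at h ⊢
  exact (h.and_eventually hA).mono fun x hx => ⟨hx.1, hx.2⟩

lemma Pos.nonempty {X : Set K} (h : Pos W X) : X.Nonempty := by
  rw [pos_iff_frequently] at h
  exact h.exists

lemma Pos.of_eventually {X Y : Set K} (h : Pos W X) (hXY : ∀ᶠ x in W, x ∈ X → x ∈ Y) :
    Pos W Y := by
  rw [pos_iff_frequently] at h ⊢
  exact (h.and_eventually hXY).mono fun x hx => hx.2 hx.1

lemma pos_univ [W.NeBot] : Pos W (univ : Set K) := by
  unfold Pos; simp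

/-- a small union of null sets is null -/
lemma exists_pos_of_pos_iUnion [CardinalInterFilter W κ] {ι : Type u} (hι : #ι < κ)
    {A : ι → Set K} (h : Pos W (⋃ i, A i)) : ∃ i, Pos W (A i) := by
  by_contra hcon
  push Not at hcon
  refine h ?_
  rw [compl_iUnion]
  refine (cardinal_iInter_mem hι).2 fun i => ?_
  have := hcon i
  unfold Pos at this
  exact not_not.1 this

lemma exists_pos_of_pos_iUnion_nat [CountableInterFilter W] {ι : Type*} [Countable ι]
    {A : ι → Set K} (h : Pos W (⋃ i, A i)) : ∃ i, Pos W (A i) := by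
  by_contra hcon
  push Not at hcon
  refine h ?_
  rw [compl_iUnion]
  refine countable_iInter_mem.2 fun i => ?_
  have := hcon i
  unfold Pos at this
  exact not_not.1 this

/-- maximal antichains: a family `D` dense below `X` contains a countable family whose union is
`X` mod `W`, and which is almost disjoint. -/
lemma exists_maximal_antichain [CountableInterFilter W] (hsat : OmegaOneSaturated W)
    {X : Set K} (hX : Pos W X) (D : Set (Set K)) (hDpos : ∀ Z ∈ D, Pos W Z)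
    (hdense : ∀ Y ⊆ X, Pos W Y → ∃ Z ∈ D, Z ⊆ Y) :
    ∃ A : ℕ → Set K, (∀ n, A n ∈ D) ∧ (∀ m n, A m ≠ A n → ¬ Pos W (A m ∩ A n)) ∧
      (∀ᶠ x in W, x ∈ X → ∃ n, x ∈ A n) := by
  classical
  -- antichains inside D
  let S : Set (Set (Set K)) :=
    {𝒜 | 𝒜 ⊆ D ∧ 𝒜.Pairwise fun A B => ¬ Pos W (A ∩ B)}
  obtain ⟨𝒜, h𝒜⟩ : ∃ 𝒜, Maximal (fun 𝒜 => 𝒜 ∈ S) 𝒜 := by
    refine zorn_subset S fun c hcS hc => ?_
    refine ⟨⋃₀ c, ⟨sUnion_subset fun 𝒜 h => (hcS h).1, ?_⟩, fun s hs => subset_sUnion_of_mem hs⟩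
    intro A hA B hB hAB
    obtain ⟨a, ha, hAa⟩ := hA
    obtain ⟨b, hb, hBb⟩ := hB
    rcases hc.total ha hb with h | h
    · exact (hcS hb).2 (h hAa) hBb hAB
    · exact (hcS ha).2 hAa (h hBb) hAB
  have hA1 : 𝒜 ⊆ D := h𝒜.1.1
  have hA2 := h𝒜.1.2
  have hcount : 𝒜.Countable := hsat 𝒜 (fun A hA => hDpos A (hA1 hA)) hA2
  -- the union covers X
  have hcover : ¬ Pos W (X \ ⋃₀ 𝒜) := by
    intro hpos
    obtain ⟨Z, hZD, hZ⟩ := hdense _ sdiff_subset hpos
    have hZnot : Z ∉ 𝒜 := by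
      intro hZA
      obtain ⟨z, hz⟩ := (hDpos Z hZD).nonempty
      exact (hZ hz).2 ⟨Z, hZA, hz⟩
    have hins : insert Z 𝒜 ∈ S := by
      refine ⟨insert_subset hZD hA1, ?_⟩
      have hdisj : ∀ A ∈ 𝒜, ¬ Pos W (Z ∩ A) := by
        intro A hA hp
        obtain ⟨z, hz⟩ := hp.nonempty
        exact (hZ hz.1).2 ⟨A, hA, hz.2⟩
      refine hA2.insert fun A hA _ => ⟨hdisj A hA, ?_⟩
      rw [inter_comm]; exact hdisj A hA
    exact hZnot (h𝒜.2 hins (subset_insert _ _) (mem_insert _ _))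
  have hne : 𝒜.Nonempty := by
    by_contra hemp
    rw [not_nonempty_iff_eq_empty] at hemp
    rw [hemp, sUnion_empty, sdiff_empty] at hcover
    exact hcover hX
  obtain ⟨A, hA⟩ := hcount.exists_eq_range hne
  refine ⟨A, fun n => hA1 (hA ▸ mem_range_self n), fun m n hmn => ?_, ?_⟩
  · exact hA2 (hA ▸ mem_range_self m) (hA ▸ mem_range_self n) hmn
  · rw [not_pos_iff] at hcover
    filter_upwards [hcover] with x hx hxX
    by_contra hcon
    push Not at hcon
    apply hx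
    refine ⟨hxX, ?_⟩
    rintro ⟨B, hB, hxB⟩
    rw [hA] at hB
    obtain ⟨n, rfl⟩ := hB
    exact hcon n hxB

/-- mixing: if each member of a family dense below `X` carries a function with property `Q`
which only depends on the values mod `W` on that set, then one function does it on a maximal
antichain. -/
lemma exists_mix [CountableInterFilter W] (hsat : OmegaOneSaturated W)
    {X : Set K} (hX : Pos W X) {T : Type*} [Nonempty T] (Q : Set K → (K → T) → Prop)
    (hQ : ∀ Z g g', Q Z g → (∀ᶠ x in W, x ∈ Z → g x = g' x) → Q Z g')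
    (hdense : ∀ Y ⊆ X, Pos W Y → ∃ Z ⊆ Y, Pos W Z ∧ ∃ g, Q Z g) :
    ∃ (A : ℕ → Set K) (g : K → T), (∀ n, Pos W (A n) ∧ A n ⊆ X ∧ Q (A n) g) ∧
      (∀ᶠ x in W, x ∈ X → ∃ n, x ∈ A n) := by
  classical
  let D : Set (Set K) := {Z | Z ⊆ X ∧ Pos W Z ∧ ∃ g, Q Z g}
  obtain ⟨A, hAD, hAdisj, hAcov⟩ := exists_maximal_antichain hsat hX D (fun Z hZ => hZ.2.1)
    (fun Y hY hYp => by
      obtain ⟨Z, hZY, hZp, hg⟩ := hdense Y hY hYp
      exact ⟨Z, ⟨hZY.trans hY, hZp, hg⟩, hZY⟩)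
  -- choose a function for each set
  let G : Set K → K → T := fun Z => if h : ∃ g, Q Z g then h.choose else fun _ => Classical.arbitrary T
  have hG : ∀ Z ∈ D, Q Z (G Z) := by
    intro Z hZ
    have h := hZ.2.2
    simp only [G, dif_pos h]
    exact h.choose_spec
  let g : K → T := fun x => if h : ∃ n, x ∈ A n then G (A (Nat.find h)) x else Classical.arbitrary T
  refine ⟨A, g, fun n => ⟨(hAD n).2.1, (hAD n).1, ?_⟩, hAcov⟩
  refine hQ (A n) (G (A n)) g (hG _ (hAD n)) ?_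
  have hev : ∀ᶠ x in W, ∀ m, A m ≠ A n → x ∉ A m ∩ A n := by
    rw [eventually_countable_forall]
    intro m
    by_cases hmn : A m = A n
    · exact Eventually.of_forall fun x h => absurd hmn h
    · have := hAdisj m n hmn
      rw [not_pos_iff] at this
      exact this.mono fun x hx _ => hx
  filter_upwards [hev] with x hx hxn
  have hex : ∃ n, x ∈ A n := ⟨n, hxn⟩
  simp only [g, dif_pos hex]
  have hfind := Nat.find_spec hex
  by_cases heq : A (Nat.find hex) = A n
  · rw [heq]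
  · exact absurd ⟨hfind, hxn⟩ (hx _ heq)

end Pool.Agent.GU48
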