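import Pool.Agent.Lib_helper48.GU.Rank

open Cardinal Set Filter

universe u

namespace Pool.Agent.GU48

variable {K : Type u} {W : Filter K} {κ : Cardinal.{u}}

/-- an almost disjoint family has only countably many positive members -/
lemma countable_pos_of_almostDisjoint {T : Type*} (hsat : OmegaOneSaturated W) (B : T → Set K)
    (S : Set T) (hdisj : ∀ v ∈ S, ∀ w ∈ S, v ≠ w → ¬ Pos W (B v ∩ B w)) :
    {v | v ∈ S ∧ Pos W (B v)}.Countable := by
  have hinj : InjOn B {v | v ∈ S ∧ Pos W (B v)} := by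
    intro v hv w hw h
    by_contra hne
    apply hdisj v hv.1 w hw.1 hne
    rw [← h, inter_self]
    exact hv.2
  refine countable_of_injective_of_countable_image hinj ?_
  refine hsat _ ?_ ?_
  · rintro A ⟨v, hv, rfl⟩
    exact hv.2
  · rintro A ⟨v, hv, rfl⟩ B' ⟨w, hw, rfl⟩ hne
    exact hdisj v hv.1 w hw.1 (fun h => hne (by rw [h]))

lemma countable_values {T : Type*} (hsat : OmegaOneSaturated W) (Z : Set K) (p : K → T) :
    {v | Pos W {k | k ∈ Z ∧ p k = v}}.Countable := by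
  have := countable_pos_of_almostDisjoint hsat (fun v => {k | k ∈ Z ∧ p k = v}) univ
    (by
      intro v _ w _ hvw hp
      obtain ⟨k, hk1, hk2⟩ := hp.nonempty
      exact hvw (hk1.2.symm.trans hk2.2))
  simpa using this

/-- capturing of `κ` many functions by one with countable values -/
lemma capture [CardinalInterFilter W κ] (hsat : OmegaOneSaturated W)
    {ι T : Type u} (hι : #ι < κ) (hT : #T < κ) (h : K → ι → T) :
    ∃ C : ι → Set T, (∀ i, (C i).Countable) ∧ ∀ᶠ k in W, ∀ i, h k i ∈ C i := by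
  refine ⟨fun i => {v | Pos W {k | k ∈ (univ : Set K) ∧ h k i = v}},
    fun i => countable_values hsat univ fun k => h k i, ?_⟩
  rw [eventually_cardinal_forall hι]
  intro i
  have h1 : ∀ᶠ k in W, ∀ v, ¬ Pos W {k | k ∈ (univ : Set K) ∧ h k i = v} → h k i ≠ v := by
    rw [eventually_cardinal_forall hT]
    intro v
    by_cases hv : Pos W {k | k ∈ (univ : Set K) ∧ h k i = v}
    · exact Eventually.of_forall fun k h => absurd hv h
    · have hv' := hv
      rw [not_pos_iff] at hv'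
      exact hv'.mono fun k hk _ hk' => hk ⟨mem_univ _, hk'⟩
  refine h1.mono fun k hk => ?_
  by_contra hcon
  exact hk (h k i) hcon rfl

/-- the standing assumptions on the well order `K` and the filter `W` -/
structure Setup (K : Type u) [LinearOrder K] (W : Filter K) (κ : Cardinal.{u}) : Prop where
  hκ : ℵ₀ < κ
  hK : #K = κ
  hIio : ∀ b : K, #(Iio b) < κ
  hnp : ∀ x : K, {x}ᶜ ∈ W
  hsat : OmegaOneSaturated W

variable [LinearOrder K]

lemma Setup.null_of_small [CardinalInterFilter W κ] (hS : Setup K W κ) {A : Set K}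
    (hA : #A < κ) : ¬ Pos W A := by
  rw [not_pos_iff]
  have : ∀ᶠ x : K in W, ∀ a : A, x ≠ (a : K) := by
    rw [eventually_cardinal_forall hA]
    intro a
    exact hS.hnp a
  exact this.mono fun x hx hxA => hx ⟨x, hxA⟩ rfl

lemma Setup.eventually_gt [CardinalInterFilter W κ] (hS : Setup K W κ) (b : K) :
    ∀ᶠ x in W, b < x := by
  have h1 : #(Iic b) < κ := by
    have h2 : (Iic b) = insert b (Iio b) := by
      rw [← Iio_insert]
    rw [h2]
    refine (Cardinal.mk_insert_le).trans_lt ?_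
    exact add_lt_of_lt hS.hκ.le (hS.hIio b) (one_lt_aleph0.trans hS.hκ)
  have := hS.null_of_small h1
  rw [not_pos_iff] at this
  exact this.mono fun x hx => not_le.1 hx

/-- Luzin's argument: a cover of size `≤ κ` can be thinned out to one of size `< κ`. -/
lemma Setup.luzin [W.NeBot] [CardinalInterFilter W κ] (hS : Setup K W κ) {β : K}
    (h : SmallCover κ β) :
    ∃ 𝓕 : Set (Iio β → Iio β), #𝓕 < κ ∧
      ∀ f : Iio β → Iio β, ∃ 𝓒 ⊆ 𝓕, 𝓒.Countable ∧ ∀ ξ, ∃ g ∈ 𝓒, g ξ = f ξ := by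
  haveI : CountableInterFilter W := CardinalInterFilter.toCountableInterFilter W hS.hκ
  obtain ⟨𝓕, h𝓕, hcov⟩ := h
  rcases h𝓕.lt_or_eq with hlt | heq
  · exact ⟨𝓕, hlt, hcov⟩
  by_contra hcon
  push Not at hcon
  obtain ⟨e⟩ : Nonempty (K ≃ 𝓕) := by
    rw [← Cardinal.eq, heq, hS.hK]
  -- functions not covered by the first `k` members
  have h1 : ∀ k : K, ∃ f : Iio β → Iio β, ∀ 𝓒 ⊆ ((fun j : K => (e j : Iio β → Iio β)) '' Iio k),
      𝓒.Countable → ∃ ξ, ∀ g ∈ 𝓒, g ξ ≠ f ξ := by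
    intro k
    exact hcon _ (Cardinal.mk_image_le.trans_lt (hS.hIio k))
  choose f hf using h1
  obtain ⟨C, hC, hev⟩ := capture (κ := κ) hS.hsat (hS.hIio β) (hS.hIio β) f
  have hne : ∀ ξ, (C ξ).Nonempty := by
    intro ξ
    obtain ⟨k, hk⟩ := hev.exists
    exact ⟨_, hk ξ⟩
  have henum : ∀ ξ, ∃ s : ℕ → Iio β, C ξ = range s := fun ξ => (hC ξ).exists_eq_range (hne ξ)
  choose s hs using henum
  choose 𝓒 h𝓒 h𝓒c h𝓒cov using fun n => hcov (fun ξ => s ξ n)
  -- the countable set of indices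
  let J : Set K := {j | ∃ n, (e j : Iio β → Iio β) ∈ 𝓒 n}
  have hJ : J.Countable := by
    have h2 : (⋃ n, 𝓒 n).Countable := countable_iUnion h𝓒c
    refine countable_of_injective_of_countable_image (f := fun j : K => (e j : Iio β → Iio β))
      (fun a _ b _ hab => e.injective (Subtype.ext hab)) (h2.mono ?_)
    rintro _ ⟨j, ⟨n, hn⟩, rfl⟩
    exact mem_iUnion.2 ⟨n, hn⟩
  have hgt : ∀ᶠ x in W, ∀ j ∈ J, j < x :=
    (eventually_countable_ball hJ).2 fun j _ => hS.eventually_gt j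
  obtain ⟨k, hk1, hk2⟩ := (hgt.and hev).exists
  obtain ⟨ξ, hξ⟩ := hf k (⋃ n, 𝓒 n) (by
    intro g hg
    obtain ⟨n, hn⟩ := mem_iUnion.1 hg
    refine ⟨e.symm ⟨g, h𝓒 n hn⟩, hk1 _ ⟨n, ?_⟩, ?_⟩
    · rw [Equiv.apply_symm_apply]; exact hn
    · simp only [Equiv.apply_symm_apply]) (countable_iUnion h𝓒c)
  have h3 := hk2 ξ
  rw [hs ξ] at h3
  obtain ⟨n, hn⟩ := h3
  obtain ⟨g, hg, hg2⟩ := h𝓒cov n ξ
  exact hξ g (mem_iUnion.2 ⟨n, hg⟩) (hg2.trans hn)

/-- enumeration of a small cover by an initial segment of `K` -/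
lemma Setup.exists_enum [W.NeBot] [CardinalInterFilter W κ] (hS : Setup K W κ) {β : K}
    (h : SmallCover κ β) :
    ∃ (G : K → K → K) (m : K), ∀ f : K → K, ∃ s : ℕ → K, (∀ n, s n < m) ∧
      ∀ ξ < β, f ξ < β → ∃ n, G (s n) ξ = f ξ := by
  classical
  haveI : CountableInterFilter W := CardinalInterFilter.toCountableInterFilter W hS.hκ
  obtain ⟨𝓕, h𝓕, hcov⟩ := hS.luzin h
  obtain ⟨i⟩ : Nonempty (𝓕 ↪ K) := by
    have : #𝓕 ≤ #K := by rw [hS.hK]; exact h𝓕.le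
    exact this
  obtain ⟨i0⟩ : Nonempty K := by
    obtain ⟨x, _⟩ := (hS.eventually_gt β).exists
    exact ⟨x⟩
  have hgt : ∀ᶠ x in W, ∀ φ : 𝓕, i φ < x := by
    rw [eventually_cardinal_forall h𝓕]
    exact fun φ => hS.eventually_gt _
  obtain ⟨m, hm1, hm2⟩ := (hgt.and (hS.eventually_gt i0)).exists
  -- G j = the function with index j
  let G : K → K → K := fun j ξ =>
    if h : ∃ φ : 𝓕, i φ = j then
      if hξ : ξ < β then (h.choose.1 ⟨ξ, hξ⟩ : K) else ξ
    else ξ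
  have hG : ∀ (φ : 𝓕) (ξ : K) (hξ : ξ < β), G (i φ) ξ = (φ.1 ⟨ξ, hξ⟩ : K) := by
    intro φ ξ hξ
    have hex : ∃ ψ : 𝓕, i ψ = i φ := ⟨φ, rfl⟩
    have heq : hex.choose = φ := i.injective hex.choose_spec
    simp only [G, dif_pos hex, dif_pos hξ]
    rw [heq]
  refine ⟨G, m, fun f => ?_⟩
  obtain ⟨𝓒, h𝓒, hc, hcv⟩ := hcov fun ξ => if h : f ξ < β then ⟨f ξ, h⟩ else ξ
  by_cases hemp : 𝓒.Nonempty
  · obtain ⟨t, ht⟩ := hc.exists_eq_range hemp
    have htm : ∀ n, t n ∈ 𝓕 := fun n => h𝓒 (ht ▸ mem_range_self n)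
    refine ⟨fun n => i ⟨t n, htm n⟩, fun n => hm1 _, fun ξ hξ hfξ => ?_⟩
    obtain ⟨g, hg, hg2⟩ := hcv ⟨ξ, hξ⟩
    rw [ht] at hg
    obtain ⟨n, rfl⟩ := hg
    refine ⟨n, ?_⟩
    rw [hG _ ξ hξ]
    simp only [dif_pos hfξ] at hg2
    simp only [hg2]
  · refine ⟨fun _ => i0, fun _ => hm2, fun ξ hξ _ => ?_⟩
    obtain ⟨g, hg, _⟩ := hcv ⟨ξ, hξ⟩
    exact absurd ⟨g, hg⟩ hemp

end Pool.Agent.GU48
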