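import Mathlib

/-!
# Generic ultrapowers by `ω₁`-saturated `κ`-complete filters: definitions
(MP_5b3e48_lc).  `K` is the well ordered set underlying the cardinal `κ`.
-/

open Cardinal Set Filter

universe u

namespace Pool.Agent.GU48

/-- `X` is `W`-positive (`X ∈ W⁺`): its complement is not in `W`. -/
def Pos {K : Type u} (W : Filter K) (X : Set K) : Prop := Xᶜ ∉ W

/-- `W` is `ω₁`-saturated: every antichain of `W⁺` is countable. -/
def OmegaOneSaturated {K : Type u} (W : Filter K) : Prop :=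
  ∀ 𝒜 : Set (Set K), (∀ A ∈ 𝒜, Pos W A) →
    (𝒜.Pairwise fun A B => ¬ Pos W (A ∩ B)) → 𝒜.Countable

/-- The condition `X ∈ W⁺` forces `j_W(κ) = θ`: there are functions `F α : κ → κ` (`α < θ`)
such that `X` forces that `α ↦ [F α]` is strictly increasing on `θ` and that every element
`[g]`, `g : κ → κ`, of `j_W(κ)` is one of the `[F α]`. -/
def ForcesImageEq {K : Type u} [LinearOrder K] (W : Filter K) (X : Set K)
    (θ : Ordinal.{u}) : Prop :=
  ∃ F : Ordinal.{u} → K → K,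
    (∀ α β, α < β → β < θ → ∀ᶠ x in W, x ∈ X → F α x < F β x) ∧
    (∀ g : K → K, ∀ Y ⊆ X, Pos W Y → ∃ Z ⊆ Y, Pos W Z ∧
      ∃ α < θ, ∀ᶠ x in W, x ∈ Z → g x = F α x)

/-- `P` forces that `j_W(κ)` is not a cardinal: the conditions `X` that force
`j_W(κ) = θ` for some ordinal `θ` which is not a cardinal are dense below `P`. -/
def ForcesImageNotCardinal {K : Type u} [LinearOrder K] (W : Filter K) (P : Set K) : Prop :=
  ∀ Y ⊆ P, Pos W Y → ∃ X ⊆ Y, Pos W X ∧ ∃ θ : Ordinal.{u},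
    ForcesImageEq W X θ ∧ ∀ c : Cardinal.{u}, θ ≠ c.ord

/-- `β` has a small cover: there are at most `κ` functions `β → β` such that every function
`β → β` is covered by the graphs of countably many of them. -/
def SmallCover {K : Type u} [LinearOrder K] (κ : Cardinal.{u}) (β : K) : Prop :=
  ∃ 𝓕 : Set (Iio β → Iio β), #𝓕 ≤ κ ∧
    ∀ f : Iio β → Iio β, ∃ 𝓒 ⊆ 𝓕, 𝓒.Countable ∧ ∀ ξ, ∃ g ∈ 𝓒, g ξ = f ξ

end Pool.Agent.GU48
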