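import Pool.Agent.Lib_helper48.GU.Cover

open Cardinal Set Filter

universe u

namespace Pool.Agent.GU48

variable {K : Type u} {W : Filter K} {κ : Cardinal.{u}}
variable [LinearOrder K] [WellFoundedLT K]

/-- the cardinality bounds behind the main argument -/
lemma card_le_of_almostDisjoint_map {κ : Cardinal.{u}} (hsat : OmegaOneSaturated W)
    {θ τ : Ordinal.{u}} (B : Iio θ → (Iio τ × ℕ) → Set K)
    (hdisj : ∀ v w : Iio θ, v ≠ w → ∀ p, ¬ Pos W (B v p ∩ B w p))
    (hex : ∀ v : Iio θ, ∃ p, Pos W (B v p)) :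
    #(Iio θ) ≤ #(Iio τ × ℕ) * ℵ₀ := by
  choose φ hφ using hex
  refine Cardinal.mk_le_mk_mul_of_mk_preimage_le φ fun p => ?_
  rw [Cardinal.le_aleph0_iff_set_countable]
  refine (countable_pos_of_almostDisjoint hsat (fun v => B v p) univ
    (fun v _ w _ h => hdisj v w h p)).mono ?_
  intro v hv
  have : φ v = p := hv
  exact ⟨mem_univ _, this ▸ hφ v⟩

/-- the heart of the matter: a condition consisting of `β` with small covers cannot force
`j_W(κ)` to be a cardinal. -/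
theorem Setup.not_ord [W.NeBot] [CardinalInterFilter W κ] (hS : Setup K W κ) {X : Set K}
    (hX : Pos W X) (hcov : ∀ β ∈ X, SmallCover κ β) {θ : Ordinal.{u}}
    (hF : ForcesImageEq W X θ) (c : Cardinal.{u}) : θ ≠ c.ord := by
  classical
  haveI : CountableInterFilter W := CardinalInterFilter.toCountableInterFilter W hS.hκ
  rintro rfl
  obtain ⟨F, hF1, hF2⟩ := hF
  have hsat := hS.hsat
  haveI : Nonempty K := ⟨hX.nonempty.some⟩
  -- almost disjointness
  have hdisj : ∀ (g : K → K) (Z : Set K), Z ⊆ X → ∀ α < c.ord, ∀ β < c.ord, α ≠ β →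
      ¬ Pos W ({x | x ∈ Z ∧ g x = F α x} ∩ {x | x ∈ Z ∧ g x = F β x}) := by
    intro g Z hZ
    have key : ∀ α β, α < β → β < c.ord →
        ¬ Pos W ({x | x ∈ Z ∧ g x = F α x} ∩ {x | x ∈ Z ∧ g x = F β x}) := by
      intro α β hαβ hβ
      rw [not_pos_iff]
      refine (hF1 α β hαβ hβ).mono fun x hx hx' => ?_
      have h1 := hx (hZ hx'.1.1)
      have h2 : F α x = F β x := hx'.1.2.symm.trans hx'.2.2
      exact h1.ne h2
    intro α hα β hβ hne
    rcases lt_or_gt_of_ne hne with h | h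
    · exact key α β h hβ
    · rw [inter_comm]
      exact key β α h hα
  -- `c` is uncountable
  have hc : ℵ₀ < c := by
    by_contra hcon
    push Not at hcon
    have h1 : ∀ k : K, ∃ α : Iio c.ord, Pos W {x | x ∈ X ∧ k = F α x} := by
      intro k
      obtain ⟨Z, hZ, hZp, α, hα, hZα⟩ := hF2 (fun _ => k) X Subset.rfl hX
      exact ⟨⟨α, hα⟩, hZp.of_eventually (hZα.mono fun x hx hxZ => ⟨hZ hxZ, hx hxZ⟩)⟩
    choose φ hφ using h1
    have h2 : (univ : Set K).Countable := by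
      have h3 : (univ : Set K) ⊆ ⋃ α : Iio c.ord, {k | Pos W {x | x ∈ X ∧ F α x = k}} := by
        intro k _
        refine mem_iUnion.2 ⟨φ k, ?_⟩
        have := hφ k
        refine this.mono fun x hx => ⟨hx.1, hx.2.symm⟩
      refine Countable.mono h3 ?_
      haveI : Countable (Iio c.ord) := by
        rw [← Cardinal.mk_le_aleph0_iff, Cardinal.mk_Iio_ordinal, Cardinal.card_ord,
          Cardinal.lift_le_aleph0]
        exact hcon
      exact countable_iUnion fun α => countable_values hsat X (F α)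
    have h4 : #K ≤ ℵ₀ := by
      rw [← Cardinal.mk_univ]
      exact Cardinal.le_aleph0_iff_set_countable.2 h2
    rw [hS.hK] at h4
    exact absurd hS.hκ (not_lt.2 h4)
  -- enumerations of the covers
  have hG : ∀ β : K, ∃ (G : K → K → K) (m : K), β ∈ X → ∀ f : K → K, ∃ s : ℕ → K,
      (∀ n, s n < m) ∧ ∀ ξ < β, f ξ < β → ∃ n, G (s n) ξ = f ξ := by
    intro β
    by_cases hβ : β ∈ X
    · obtain ⟨G, m, h⟩ := hS.exists_enum (hcov β hβ)
      exact ⟨G, m, fun _ => h⟩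
    · exact ⟨fun _ _ => β, β, fun h => absurd h hβ⟩
  choose G μ hGμ using hG
  obtain ⟨Z, hZX, hZp, τ, hτ, hZτ⟩ := hF2 μ X Subset.rfl hX
  -- the countable sets of values
  let C : Ordinal.{u} → K → Set K := fun α ξ => {v | Pos W {β | β ∈ Z ∧ G β (F α β) ξ = v}}
  have hCc : ∀ α ξ, (C α ξ).Countable := fun α ξ => countable_values hsat Z _
  -- Claim A
  have claimA : ∀ f : K → K, ∃ A : Set Ordinal.{u}, A ⊆ Iio τ ∧ A.Countable ∧
      ∀ ξ, ∃ α ∈ A, f ξ ∈ C α ξ := by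
    intro f
    have h1 : ∀ β : K, ∃ s : ℕ → K, β ∈ X → (∀ n, s n < μ β) ∧
        ∀ ξ < β, f ξ < β → ∃ n, G β (s n) ξ = f ξ := by
      intro β
      by_cases hβ : β ∈ X
      · obtain ⟨s, hs⟩ := hGμ β hβ f
        exact ⟨s, fun _ => hs⟩
      · exact ⟨fun _ => β, fun h => absurd h hβ⟩
    choose s hs using h1
    let A : ℕ → Set Ordinal.{u} := fun n =>
      {α | α ∈ Iio τ ∧ Pos W {β | β ∈ Z ∧ s β n = F α β}}
    have hA : ∀ n, (A n).Countable := by
      intro n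
      refine countable_pos_of_almostDisjoint hsat (fun α => {β | β ∈ Z ∧ s β n = F α β})
        (Iio τ) ?_
      intro α hα α' hα' hne
      exact hdisj (fun β => s β n) Z hZX α (lt_trans hα hτ) α' (lt_trans hα' hτ) hne
    refine ⟨⋃ n, A n, ?_, countable_iUnion hA, ?_⟩
    · intro α hα
      obtain ⟨n, hn⟩ := mem_iUnion.1 hα
      exact hn.1
    intro ξ
    have hZ' : Pos W {β | β ∈ Z ∧ ξ < β ∧ f ξ < β ∧ μ β = F τ β} := by
      refine hZp.of_eventually ?_
      filter_upwards [hS.eventually_gt ξ, hS.eventually_gt (f ξ), hZτ] with β h1 h2 h3 h4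
      exact ⟨h4, h1, h2, h3 h4⟩
    have hsub : {β | β ∈ Z ∧ ξ < β ∧ f ξ < β ∧ μ β = F τ β} ⊆
        ⋃ n, {β | (β ∈ Z ∧ ξ < β ∧ f ξ < β ∧ μ β = F τ β) ∧ G β (s β n) ξ = f ξ} := by
      rintro β ⟨h1, h2, h3, h4⟩
      obtain ⟨n, hn⟩ := (hs β (hZX h1)).2 ξ h2 h3
      exact mem_iUnion.2 ⟨n, ⟨h1, h2, h3, h4⟩, hn⟩
    obtain ⟨n, hn⟩ := exists_pos_of_pos_iUnion_nat (hZ'.mono hsub)
    obtain ⟨Z3, hZ3, hZ3p, α, hα, hZ3α⟩ := hF2 (fun β => s β n) _ (by
      intro β hβ
      exact hZX hβ.1.1) hn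
    have hατ : α < τ := by
      rcases lt_trichotomy α τ with h | h | h
      · exact h
      · exfalso
        obtain ⟨β, hβ, hβ2⟩ := ((pos_iff_frequently.1 hZ3p).and_eventually hZ3α).exists
        have h1 := hZ3 hβ
        have h2 := (hs β (hZX h1.1.1)).1 n
        have h3 := hβ2 hβ
        have h4 := h1.1.2.2.2
        rw [h4, h3, h] at h2
        exact lt_irrefl _ h2
      · exfalso
        obtain ⟨β, hβ, hβ2, hβ3⟩ := ((pos_iff_frequently.1 hZ3p).and_eventually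
          (hZ3α.and (hF1 τ α h hα))).exists
        have h1 := hZ3 hβ
        have h2 := (hs β (hZX h1.1.1)).1 n
        have h3 := hβ2 hβ
        have h4 := h1.1.2.2.2
        have h5 := hβ3 (hZX h1.1.1)
        rw [h4, h3] at h2
        exact lt_asymm h2 h5
    refine ⟨α, mem_iUnion.2 ⟨n, hατ, ?_⟩, ?_⟩
    · refine hZ3p.of_eventually (hZ3α.mono fun β hβ hβ3 => ⟨(hZ3 hβ3).1.1, hβ hβ3⟩)
    · refine hZ3p.of_eventually (hZ3α.mono fun β hβ hβ3 => ⟨(hZ3 hβ3).1.1, ?_⟩)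
      rw [← hβ hβ3]
      exact (hZ3 hβ3).2
  -- enumerate the values
  have hen : ∀ α ξ, ∃ e : ℕ → K, C α ξ ⊆ range e := by
    intro α ξ
    by_cases h : (C α ξ).Nonempty
    · obtain ⟨e, he⟩ := (hCc α ξ).exists_eq_range h
      exact ⟨e, he.subset⟩
    · rw [not_nonempty_iff_eq_empty] at h
      exact ⟨fun _ => ξ, by rw [h]; exact empty_subset _⟩
  choose e he using hen
  -- Claim B
  have hle := card_le_of_almostDisjoint_map (κ := κ) hsat (θ := c.ord) (τ := τ)
    (fun v p => {x | x ∈ X ∧ e p.1 x p.2 = F v x})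
    (by
      intro v w hvw p
      exact hdisj (fun x => e p.1 x p.2) X Subset.rfl v v.2 w w.2
        (fun h => hvw (Subtype.ext h)))
    (by
      intro v
      obtain ⟨A, hAτ, hAc, hA⟩ := claimA (F v)
      haveI : Countable A := hAc.to_subtype
      have hsub : X ⊆ ⋃ p : A × ℕ, {x | x ∈ X ∧ e p.1 x p.2 = F v x} := by
        intro x hx
        obtain ⟨α, hα, hα2⟩ := hA x
        obtain ⟨n, hn⟩ := he α x hα2
        exact mem_iUnion.2 ⟨(⟨α, hα⟩, n), hx, hn⟩
      obtain ⟨p, hp⟩ := exists_pos_of_pos_iUnion_nat (hX.mono hsub)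
      exact ⟨(⟨p.1, hAτ p.1.2⟩, p.2), hp⟩)
  rw [Cardinal.mk_Iio_ordinal, Cardinal.card_ord, Cardinal.mk_prod, Cardinal.mk_Iio_ordinal,
    Cardinal.lift_lift, Cardinal.mk_eq_aleph0 ℕ, Cardinal.lift_aleph0] at hle
  have hτc : Cardinal.lift.{u + 1} τ.card < Cardinal.lift.{u + 1} c := by
    rw [Cardinal.lift_lt]
    exact Cardinal.lt_ord.1 hτ
  have hcl : ℵ₀ < Cardinal.lift.{u + 1} c := by
    rw [Cardinal.aleph0_lt_lift]
    exact hc
  have : Cardinal.lift.{u + 1} τ.card * ℵ₀ * ℵ₀ < Cardinal.lift.{u + 1} c :=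
    Cardinal.mul_lt_of_lt hcl.le (Cardinal.mul_lt_of_lt hcl.le hτc hcl) hcl
  exact absurd this (not_lt.2 (by simpa using hle))

/-- Theorem A. -/
theorem Setup.forcesImageNotCardinal [W.NeBot] [CardinalInterFilter W κ] (hS : Setup K W κ)
    {P : Set K} (hP : ∀ β ∈ P, SmallCover κ β) : ForcesImageNotCardinal W P := by
  haveI : CountableInterFilter W := CardinalInterFilter.toCountableInterFilter W hS.hκ
  intro Y hY hYp
  obtain ⟨X, hXY, hXp, θ, hθ⟩ := exists_forcesImageEq hS.hsat hYp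
  exact ⟨X, hXY, hXp, θ, hθ, hS.not_ord hXp (fun β hβ => hP β (hY (hXY hβ))) hθ⟩

end Pool.Agent.GU48
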