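import Pool.Agent.Lib_helper48.GU.Main

open Cardinal Set Filter

universe u

namespace Pool.Agent.GU48

variable {K : Type u} {W : Filter K} {κ : Cardinal.{u}}
variable [LinearOrder K]

/-- pigeonhole: if `T` has more than `κ` elements, and every element of `T` is a function with
values in `K` on a set of size `< κ`, then `κ` many distinct ones have a common bound -/
lemma Setup.exists_common_bound [W.NeBot] [CardinalInterFilter W κ] (hS : Setup K W κ)
    {ι T : Type u} (hι : #ι < κ) (hT : κ < #T) (v : T → ι → K) :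
    ∃ (γ : K) (y : K → T), Function.Injective y ∧ ∀ k i, v (y k) i < γ := by
  classical
  have h1 : ∀ x : T, ∃ γ : K, ∀ i, v x i < γ := by
    intro x
    have : ∀ᶠ k in W, ∀ i, v x i < k := by
      rw [eventually_cardinal_forall hι]
      exact fun i => hS.eventually_gt _
    exact this.exists
  choose g hg using h1
  have h2 : ∃ γ : K, κ ≤ #(g ⁻¹' {γ}) := by
    by_contra hcon
    push Not at hcon
    have := Cardinal.mk_le_mk_mul_of_mk_preimage_le (c := κ) g fun b => (hcon b).le
    rw [hS.hK, Cardinal.mul_eq_self hS.hκ.le] at this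
    exact absurd hT (not_lt.2 this)
  obtain ⟨γ, hγ⟩ := h2
  rw [← hS.hK] at hγ
  obtain ⟨y⟩ : Nonempty (K ↪ (g ⁻¹' {γ} : Set T)) := hγ
  refine ⟨γ, fun k => (y k).1, fun a b hab => y.injective (Subtype.ext hab), fun k i => ?_⟩
  have := hg (y k).1 i
  have h3 : g (y k).1 = γ := (y k).2
  rwa [h3] at this

/-- `κ ^ ℵ₀ ≤ κ` if `2 ^ ℵ₀ ≤ κ` -/
lemma Setup.power_aleph0 [W.NeBot] [CardinalInterFilter W κ] (hS : Setup K W κ)
    (h2 : 2 ^ ℵ₀ ≤ κ) : #(ULift.{u} ℕ → K) ≤ κ := by
  classical
  haveI : CountableInterFilter W := CardinalInterFilter.toCountableInterFilter W hS.hκ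
  rcases h2.eq_or_lt with heq | hlt
  · have : #(ULift.{u} ℕ → K) = κ ^ ℵ₀ := by
      rw [← Cardinal.power_def, hS.hK]
      simp
    rw [this, ← heq, ← Cardinal.power_mul, Cardinal.aleph0_mul_aleph0]
  by_contra hcon
  push Not at hcon
  have hι : #(ULift.{u} ℕ) < κ := by simpa using hS.hκ
  obtain ⟨γ, y, hy, hyγ⟩ := hS.exists_common_bound hι hcon (fun x i => x i)
  obtain ⟨C, hC, hev⟩ := capture (κ := κ) hS.hsat hι (hS.hIio γ)
    (fun k i => (⟨y k i, hyγ k i⟩ : Iio γ))
  -- the set of captured `k` injects into a product of countable sets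
  have hsub : #{k : K | ∀ i, (⟨y k i, hyγ k i⟩ : Iio γ) ∈ C i} ≤ #(∀ i : ULift.{u} ℕ, C i) := by
    refine Cardinal.mk_le_of_injective (f := fun k i => ⟨⟨y k.1 i, hyγ k.1 i⟩, k.2 i⟩) ?_
    intro a b hab
    apply Subtype.ext
    apply hy
    funext i
    have := congrFun hab i
    simp only [Subtype.mk.injEq] at this
    exact this
  have hle : #(∀ i : ULift.{u} ℕ, C i) ≤ 2 ^ ℵ₀ := by
    rw [Cardinal.mk_pi]
    refine (Cardinal.prod_le_prod _ (fun _ => ℵ₀) fun i => ?_).trans ?_
    · exact Cardinal.le_aleph0_iff_set_countable.2 (hC i)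
    · rw [Cardinal.prod_const]
      simp
  have hnull := hS.null_of_small ((hsub.trans hle).trans_lt hlt)
  rw [not_pos_iff] at hnull
  obtain ⟨k, hk1, hk2⟩ := (hnull.and hev).exists
  exact hk1 hk2

/-- the induction step of Prikry's theorem -/
lemma Setup.bool_le [W.NeBot] [CardinalInterFilter W κ] (hS : Setup K W κ)
    (h2 : 2 ^ ℵ₀ ≤ κ) {L : Type u} [LinearOrder L] [WellFoundedLT L] [NoMaxOrder L]
    (hL : #L < κ) (hIH : ∀ a : L, #(Iio a → Bool) ≤ κ) : #(L → Bool) ≤ κ := by
  classical
  haveI : CountableInterFilter W := CardinalInterFilter.toCountableInterFilter W hS.hκ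
  have hcode : ∀ a : L, ∃ c : (Iio a → Bool) → K, Function.Injective c := by
    intro a
    have := hIH a
    rw [← hS.hK] at this
    obtain ⟨c⟩ : Nonempty ((Iio a → Bool) ↪ K) := this
    exact ⟨c, c.injective⟩
  choose c hc using hcode
  have hceq : ∀ (x y : L → Bool) (a : L), c a (fun b => x b) = c a (fun b => y b) ↔
      ∀ b < a, x b = y b := by
    intro x y a
    constructor
    · intro h b hb
      exact congrFun (hc a h) ⟨b, hb⟩
    · intro h
      congr 1
      funext b
      exact h b b.2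
  by_cases hcf : ∃ s : ℕ → L, ∀ b, ∃ n, b < s n
  · -- countable cofinality
    obtain ⟨s, hs⟩ := hcf
    refine le_trans ?_ (hS.power_aleph0 h2)
    refine Cardinal.mk_le_of_injective
      (f := fun x (i : ULift.{u} ℕ) => c (s i.down) (fun b => x b)) ?_
    intro x y hxy
    funext b
    obtain ⟨n, hn⟩ := hs b
    have := congrFun hxy ⟨n⟩
    exact (hceq x y (s n)).1 this b hn
  -- uncountable cofinality
  push Not at hcf
  by_contra hcon
  push Not at hcon
  obtain ⟨γ, y, hy, hyγ⟩ := hS.exists_common_bound hL hcon (fun x a => c a (fun b => x b))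
  let h : K → L → Iio γ := fun k a => ⟨c a (fun b => y k b), hyγ k a⟩
  have hheq : ∀ k i a, h k a = h i a ↔ ∀ b < a, y k b = y i b := by
    intro k i a
    rw [← hceq]
    simp only [h, Subtype.mk.injEq]
  -- for almost all `i` all the sets `B i a` are positive
  have hev : ∀ᶠ i in W, ∀ a : L, Pos W {k | h k a = h i a} := by
    rw [eventually_cardinal_forall hL]
    intro a
    have h1 : ∀ᶠ i in W, ∀ v : Iio γ, ¬ Pos W {k | h k a = v} → h i a ≠ v := by
      rw [eventually_cardinal_forall (hS.hIio γ)]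
      intro v
      by_cases hv : Pos W {k | h k a = v}
      · exact Eventually.of_forall fun k h => absurd hv h
      · have hv' := hv
        rw [not_pos_iff] at hv'
        exact hv'.mono fun k hk _ hk' => hk hk'
    refine h1.mono fun i hi => ?_
    by_contra hcon'
    exact hi (h i a) hcon' rfl
  obtain ⟨i, hi⟩ := hev.exists
  -- the pairwise disjoint sets `D a`
  let D : L → Set K := fun a => {k | (∀ b < a, h k b = h i b) ∧ h k a ≠ h i a}
  have hD : {a | a ∈ (univ : Set L) ∧ Pos W (D a)}.Countable := by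
    refine countable_pos_of_almostDisjoint hS.hsat D univ ?_
    have key : ∀ a b : L, a < b → ¬ Pos W (D a ∩ D b) := by
      intro a b hab hp
      obtain ⟨k, hk1, hk2⟩ := hp.nonempty
      exact hk1.2 (hk2.1 a hab)
    intro a _ b _ hab
    rcases lt_or_gt_of_ne hab with h | h
    · exact key a b h
    · rw [inter_comm]
      exact key b a h
  obtain ⟨a0, ha0⟩ : ∃ a0 : L, ∀ a, Pos W (D a) → a ≤ a0 := by
    by_cases hne : {a | a ∈ (univ : Set L) ∧ Pos W (D a)}.Nonempty
    · obtain ⟨s, hs⟩ := hD.exists_eq_range hne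
      obtain ⟨b, hb⟩ := hcf s
      refine ⟨b, fun a ha => ?_⟩
      have : a ∈ {a | a ∈ (univ : Set L) ∧ Pos W (D a)} := ⟨mem_univ _, ha⟩
      rw [hs] at this
      obtain ⟨n, rfl⟩ := this
      exact hb n
    · obtain ⟨b, _⟩ := hcf (fun _ => (Classical.choice (by
        by_contra hemp
        rw [not_nonempty_iff] at hemp
        have : #(L → Bool) ≤ ℵ₀ := by
          have : Finite (L → Bool) := inferInstance
          exact (Cardinal.lt_aleph0_of_finite _).le
        exact absurd (hcon.trans_le this) (not_lt.2 hS.hκ.le)) : L))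
      exact ⟨b, fun a ha => absurd ⟨a, mem_univ _, ha⟩ hne⟩
  -- then `{i}` is positive
  have hBig : ∀ᶠ k in W, ∀ a : L, a0 < a → k ∉ D a := by
    rw [eventually_cardinal_forall hL]
    intro a
    by_cases ha : a0 < a
    · have : ¬ Pos W (D a) := fun hp => absurd (ha0 a hp) (not_le.2 ha)
      rw [not_pos_iff] at this
      exact this.mono fun k hk _ => hk
    · exact Eventually.of_forall fun k h => absurd h ha
  have hpos : Pos W ({i} : Set K) := by
    refine (hi a0).of_eventually (hBig.mono fun k hk hk0 => ?_)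
    -- all `a`: h k a = h i a
    have hall : ∀ a, h k a = h i a := by
      intro a
      induction a using WellFoundedLT.induction with
      | ind a ih =>
        by_contra hne
        by_cases ha : a0 < a
        · exact hk a ha ⟨ih, hne⟩
        · apply hne
          rw [hheq]
          intro b hb
          exact (hheq k i a0).1 hk0 b (hb.trans_le (not_lt.1 ha))
    have : y k = y i := by
      funext b
      obtain ⟨a, ha⟩ := exists_gt b
      exact (hheq k i a).1 (hall a) b ha
    exact hy this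
  exact hpos (hS.hnp i)

/-- **Prikry's theorem** at `κ ≥ 2 ^ ℵ₀`: `2 ^ λ ≤ κ` for all `λ < κ` -/
theorem Setup.two_power_le [W.NeBot] [CardinalInterFilter W κ] (hS : Setup K W κ)
    (h2 : 2 ^ ℵ₀ ≤ κ) : ∀ c : Cardinal.{u}, c < κ → 2 ^ c ≤ κ := by
  intro c
  induction c using WellFoundedLT.induction with
  | ind c ih =>
    intro hc
    rcases le_or_gt c ℵ₀ with hle | hlt
    · exact (Cardinal.power_le_power_left two_ne_zero hle).trans h2
    have hL : #c.ord.ToType = c := by simp
    haveI : NoMaxOrder c.ord.ToType := Cardinal.noMaxOrder hlt.le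
    have := hS.bool_le h2 (L := c.ord.ToType) (by rw [hL]; exact hc) (by
      intro a
      have hlt' : #(Iio a) < c := Cardinal.mk_Iio_toType_ord_lt a
      have := ih _ hlt' (hlt'.trans hc)
      rwa [show #(Iio a → Bool) = 2 ^ #(Iio a) by rw [Cardinal.mk_arrow]; simp])
    rwa [show #(c.ord.ToType → Bool) = 2 ^ c by rw [Cardinal.mk_arrow, hL]; simp] at this

/-- all `β` have a small cover if `2 ^ ℵ₀ ≤ κ` -/
theorem Setup.smallCover [W.NeBot] [CardinalInterFilter W κ] (hS : Setup K W κ)
    (h2 : 2 ^ ℵ₀ ≤ κ) (β : K) : SmallCover κ β := by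
  refine ⟨univ, ?_, fun f => ⟨{f}, subset_univ _, countable_singleton f,
    fun ξ => ⟨f, rfl, rfl⟩⟩⟩
  rw [Cardinal.mk_univ, ← Cardinal.power_def]
  rcases lt_or_ge #(Iio β) ℵ₀ with h | h
  · exact (Cardinal.power_lt_aleph0 h h).le.trans hS.hκ.le
  · rw [Cardinal.power_self_eq h]
    exact hS.two_power_le h2 _ (hS.hIio β)

end Pool.Agent.GU48
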