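import Pool.Agent.Lib_helper48.GU.Basic

open Cardinal Set Filter

universe u

namespace Pool.Agent.GU48

variable {K : Type u} [LinearOrder K] {W : Filter K}

/-- `X` forces `[g] < [f]`. -/
def R (W : Filter K) (X : Set K) (g f : K → K) : Prop := ∀ᶠ x in W, x ∈ X → g x < f x

lemma R.trans' {X : Set K} {f g h : K → K} (h1 : R W X f g) (h2 : R W X g h) : R W X f h := by
  unfold R at *
  filter_upwards [h1, h2] with x a b hx using (a hx).trans (b hx)

lemma R.mono {X Y : Set K} {f g : K → K} (h1 : R W X f g) (h2 : Y ⊆ X) : R W Y f g := by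
  unfold R at *
  filter_upwards [h1] with x a hx using a (h2 hx)

variable [WellFoundedLT K] [CountableInterFilter W]

lemma wfR {X : Set K} (hX : Pos W X) : WellFounded (R W X) := by
  rw [wellFounded_iff_isEmpty_descending_chain]
  constructor
  rintro ⟨f, hf⟩
  have h1 : ∀ᶠ x in W, ∀ n, x ∈ X → f (n + 1) x < f n x := eventually_countable_forall.2 hf
  obtain ⟨x, hxX, hx⟩ := (Filter.Frequently.and_eventually (pos_iff_frequently.1 hX) h1).exists
  have h2 := (wellFounded_iff_isEmpty_descending_chain.1 (wellFounded_lt (α := K)))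
  exact h2.elim ⟨fun n => f n x, fun n => hx n hxX⟩

open Classical in
/-- the rank of `f` for the order forced by `X` -/
noncomputable def rk (W : Filter K) (X : Set K) (f : K → K) : Ordinal.{u} :=
  if h : WellFounded (R W X) then (h.apply f).rank else 0

lemma rk_lt {X : Set K} (hX : Pos W X) {g f : K → K} (h : R W X g f) :
    rk W X g < rk W X f := by
  unfold rk
  rw [dif_pos (wfR hX), dif_pos (wfR hX)]
  exact Acc.rank_lt_of_rel _ h

lemma rk_le_of {X : Set K} (hX : Pos W X) {f : K → K} {o : Ordinal.{u}}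
    (h : ∀ g, R W X g f → rk W X g < o) : rk W X f ≤ o := by
  have h1 : rk W X f = ((wfR hX).apply f).rank := by unfold rk; rw [dif_pos (wfR hX)]
  rw [h1, Acc.rank_eq]
  refine Ordinal.iSup_le fun b => ?_
  rw [Order.succ_le_iff]
  have := h b.1 b.2
  unfold rk at this
  rwa [dif_pos (wfR hX)] at this

lemma exists_rk_eq {X : Set K} (hX : Pos W X) {f : K → K} {α : Ordinal.{u}}
    (h : α < rk W X f) : ∃ g, R W X g f ∧ rk W X g = α := by
  induction f using (wfR hX).induction with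
  | _ f ih =>
    by_contra hcon
    push Not at hcon
    apply absurd h (not_lt.2 ?_)
    refine rk_le_of hX fun g hg => ?_
    by_contra h2
    rw [not_lt] at h2
    rcases h2.eq_or_lt with h3 | h3
    · exact hcon g hg h3.symm
    · obtain ⟨g', hg', h4⟩ := ih g hg h3
      exact hcon g' (hg'.trans' hg) h4

lemma rk_mono {X Y : Set K} (hY : Pos W Y) (hYX : Y ⊆ X) (f : K → K) :
    rk W X f ≤ rk W Y f := by
  have hX : Pos W X := hY.mono hYX
  induction f using (wfR hX).induction with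
  | _ f ih =>
    refine rk_le_of hX fun g hg => ?_
    exact (ih g hg).trans_lt (rk_lt hY (hg.mono hYX))

lemma rk_congr {X : Set K} (hX : Pos W X) {f g : K → K} (h : ∀ᶠ x in W, x ∈ X → f x = g x) :
    rk W X f = rk W X g := by
  apply le_antisymm
  · refine rk_le_of hX fun k hk => rk_lt hX ?_
    unfold R at *
    filter_upwards [hk, h] with x a b hx
    rw [← b hx]; exact a hx
  · refine rk_le_of hX fun k hk => rk_lt hX ?_
    unfold R at *
    filter_upwards [hk, h] with x a b hx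
    rw [b hx]; exact a hx

/-- if the members of a cover of `X` mod `W` -/
lemma R_of_cover {X : Set K} {A : ℕ → Set K} {g f : K → K} (hA : ∀ n, R W (A n) g f)
    (hcov : ∀ᶠ x in W, x ∈ X → ∃ n, x ∈ A n) : R W X g f := by
  have h1 : ∀ᶠ x in W, ∀ n, x ∈ A n → g x < f x := eventually_countable_forall.2 hA
  unfold R
  filter_upwards [h1, hcov] with x a b hx
  obtain ⟨n, hn⟩ := b hx
  exact a n hn

lemma exists_pos_inter_of_cover {X Y : Set K} {A : ℕ → Set K} (hY : Pos W Y) (hYX : Y ⊆ X)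
    (hcov : ∀ᶠ x in W, x ∈ X → ∃ n, x ∈ A n) : ∃ n, Pos W (Y ∩ A n) := by
  have h1 : Pos W (⋃ n, Y ∩ A n) := by
    refine hY.of_eventually ?_
    filter_upwards [hcov] with x hx hxY
    obtain ⟨n, hn⟩ := hx (hYX hxY)
    exact mem_iUnion.2 ⟨n, hxY, hn⟩
  exact exists_pos_of_pos_iUnion_nat h1

lemma le_rk_of_dense (hsat : OmegaOneSaturated W) {X : Set K} (hX : Pos W X)
    (α : Ordinal.{u}) (f : K → K)
    (h : ∀ Y ⊆ X, Pos W Y → ∃ Z ⊆ Y, Pos W Z ∧ α ≤ rk W Z f) : α ≤ rk W X f := by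
  induction α using WellFoundedLT.induction generalizing f with
  | _ α ih =>
    by_contra hcon
    rw [not_le] at hcon
    -- β = rank of f below X, β < α
    set β := rk W X f with hβ
    haveI : Nonempty K := by
      obtain ⟨x, _⟩ := hX.nonempty
      exact ⟨x⟩
    obtain ⟨B, g, hB, hcov⟩ := exists_mix hsat hX
      (fun Z g => R W Z g f ∧ ∀ Z' ⊆ Z, Pos W Z' → β ≤ rk W Z' g)
      (by
        rintro Z g g' ⟨h1, h2⟩ hgg'
        refine ⟨?_, fun Z' hZ' hp => ?_⟩
        · unfold R at *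
          filter_upwards [h1, hgg'] with x a b hx
          rw [← b hx]; exact a hx
        · rw [← rk_congr hp (hgg'.mono fun x hx hxZ => hx (hZ' hxZ))]
          exact h2 Z' hZ' hp)
      (by
        intro Y hY hYp
        obtain ⟨Z, hZY, hZp, hZ⟩ := h Y hY hYp
        obtain ⟨g, hg, hgr⟩ := exists_rk_eq hZp (hcon.trans_le hZ)
        refine ⟨Z, hZY, hZp, g, hg, fun Z' hZ' hp => ?_⟩
        rw [← hgr]
        exact rk_mono hp hZ' g)
    have h1 : R W X g f := R_of_cover (fun n => (hB n).2.2.1) hcov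
    have h2 : β ≤ rk W X g := by
      refine ih β hcon g fun Y hY hYp => ?_
      obtain ⟨n, hn⟩ := exists_pos_inter_of_cover hYp hY hcov
      exact ⟨Y ∩ B n, inter_subset_left, hn, (hB n).2.2.2 _ inter_subset_right hn⟩
    exact absurd (rk_lt hX h1) (not_lt.2 h2)

/-- `f` has rank `α` on every positive subset of `X` -/
def Stable (W : Filter K) (X : Set K) (f : K → K) (α : Ordinal.{u}) : Prop :=
  ∀ Z ⊆ X, Pos W Z → rk W Z f = α

lemma exists_stable (hsat : OmegaOneSaturated W) {X : Set K} (hX : Pos W X) (f : K → K) :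
    ∃ Y ⊆ X, Pos W Y ∧ Stable W Y f (rk W X f) := by
  by_contra hcon
  have h1 : Order.succ (rk W X f) ≤ rk W X f := by
    refine le_rk_of_dense hsat hX _ f fun Y hY hYp => ?_
    have h2 : ¬ Stable W Y f (rk W X f) := fun h => hcon ⟨Y, hY, hYp, h⟩
    unfold Stable at h2
    push Not at h2
    obtain ⟨Z, hZY, hZp, hne⟩ := h2
    refine ⟨Z, hZY, hZp, ?_⟩
    rw [Order.succ_le_iff]
    exact lt_of_le_of_ne (rk_mono hZp (hZY.trans hY) f) (Ne.symm hne)
  exact absurd (Order.lt_succ (rk W X f)) (not_lt.2 h1)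

lemma Stable.eq_of_eq {X : Set K} {f g : K → K} {α : Ordinal.{u}} (hf : Stable W X f α)
    (hg : Stable W X g α) : ∀ᶠ x in W, x ∈ X → f x = g x := by
  have h1 : ¬ Pos W {x | x ∈ X ∧ f x < g x} := by
    intro hp
    have h := rk_lt (W := W) hp (g := f) (f := g) (Eventually.of_forall fun x hx => hx.2)
    rw [hf _ (fun x hx => hx.1) hp, hg _ (fun x hx => hx.1) hp] at h
    exact lt_irrefl _ h
  have h2 : ¬ Pos W {x | x ∈ X ∧ g x < f x} := by
    intro hp
    have h := rk_lt (W := W) hp (g := g) (f := f) (Eventually.of_forall fun x hx => hx.2)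
    rw [hf _ (fun x hx => hx.1) hp, hg _ (fun x hx => hx.1) hp] at h
    exact lt_irrefl _ h
  rw [not_pos_iff] at h1 h2
  filter_upwards [h1, h2] with x a b hx
  rcases lt_trichotomy (f x) (g x) with h | h | h
  · exact absurd ⟨hx, h⟩ a
  · exact h
  · exact absurd ⟨hx, h⟩ b

lemma Stable.lt_of_lt {X : Set K} {f g : K → K} {α β : Ordinal.{u}} (hf : Stable W X f α)
    (hg : Stable W X g β) (hαβ : α < β) : R W X f g := by
  have h2 : ¬ Pos W {x | x ∈ X ∧ g x < f x} := by
    intro hp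
    have h := rk_lt (W := W) hp (g := g) (f := f) (Eventually.of_forall fun x hx => hx.2)
    rw [hf _ (fun x hx => hx.1) hp, hg _ (fun x hx => hx.1) hp] at h
    exact lt_asymm h hαβ
  have h1 : ¬ Pos W {x | x ∈ X ∧ f x = g x} := by
    intro hp
    have h := rk_congr (W := W) hp (f := f) (g := g) (Eventually.of_forall fun x hx => hx.2)
    rw [hf _ (fun x hx => hx.1) hp, hg _ (fun x hx => hx.1) hp] at h
    exact hαβ.ne h
  rw [not_pos_iff] at h1 h2
  unfold R
  filter_upwards [h1, h2] with x a b hx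
  rcases lt_trichotomy (f x) (g x) with h | h | h
  · exact h
  · exact absurd ⟨hx, h⟩ a
  · exact absurd ⟨hx, h⟩ b

/-- the supremum of all (ranks + 1) on positive subsets of `X` -/
noncomputable def height (W : Filter K) (X : Set K) : Ordinal.{u} :=
  ⨆ p : {Z : Set K // Z ⊆ X ∧ Pos W Z} × (K → K), Order.succ (rk W p.1.1 p.2)

lemma rk_lt_height {X Z : Set K} (hZ : Z ⊆ X) (hp : Pos W Z) (f : K → K) :
    rk W Z f < height W X := by
  have := Ordinal.le_iSup (fun p : {Z : Set K // Z ⊆ X ∧ Pos W Z} × (K → K) =>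
    Order.succ (rk W p.1.1 p.2)) (⟨Z, hZ, hp⟩, f)
  exact (Order.lt_succ _).trans_le this

lemma height_mono {X Y : Set K} (hYX : Y ⊆ X) : height W Y ≤ height W X := by
  refine Ordinal.iSup_le fun p => ?_
  rw [Order.succ_le_iff]
  exact rk_lt_height (p.1.2.1.trans hYX) p.1.2.2 p.2

lemma exists_of_lt_height {X : Set K} {α : Ordinal.{u}} (h : α < height W X) :
    ∃ Z ⊆ X, Pos W Z ∧ ∃ f, α ≤ rk W Z f := by
  unfold height at h
  rw [Ordinal.lt_iSup_iff] at h
  obtain ⟨⟨⟨Z, hZ, hp⟩, f⟩, h⟩ := h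
  exact ⟨Z, hZ, hp, f, Order.lt_succ_iff.1 h⟩

/-- **Existence**: the conditions deciding `j_W(κ)` are dense. -/
theorem exists_forcesImageEq (hsat : OmegaOneSaturated W) {Y : Set K} (hY : Pos W Y) :
    ∃ X ⊆ Y, Pos W X ∧ ∃ θ : Ordinal.{u}, ForcesImageEq W X θ := by
  haveI : Nonempty K := by
    obtain ⟨x, _⟩ := hY.nonempty
    exact ⟨x⟩
  -- choose X with minimal height
  obtain ⟨X, ⟨hXY, hXp⟩, hmin⟩ : ∃ X, (X ⊆ Y ∧ Pos W X) ∧
      ∀ X', X' ⊆ Y → Pos W X' → height W X ≤ height W X' := by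
    have hne : {o : Ordinal.{u} | ∃ X, X ⊆ Y ∧ Pos W X ∧ height W X = o}.Nonempty :=
      ⟨_, Y, Subset.rfl, hY, rfl⟩
    obtain ⟨X, hX1, hX2, hX3⟩ := csInf_mem hne
    refine ⟨X, ⟨hX1, hX2⟩, fun X' h1 h2 => ?_⟩
    rw [hX3]
    exact csInf_le' ⟨X', h1, h2, rfl⟩
  refine ⟨X, hXY, hXp, height W X, ?_⟩
  -- the functions F α
  have key : ∀ α < height W X, ∃ g : K → K, Stable W X g α := by
    intro α hα
    obtain ⟨A, g, hA, hcov⟩ := exists_mix hsat hXp (fun Z g => Stable W Z g α)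
      (by
        intro Z g g' h1 hgg' Z' hZ' hp
        rw [← rk_congr hp (hgg'.mono fun x hx hxZ => hx (hZ' hxZ))]
        exact h1 Z' hZ' hp)
      (by
        intro Y' hY' hYp'
        have h1 : α < height W Y' := hα.trans_le (hmin Y' (hY'.trans hXY) hYp')
        obtain ⟨Z, hZ, hZp, f, hf⟩ := exists_of_lt_height h1
        obtain ⟨g, hg⟩ : ∃ g, rk W Z g = α := by
          rcases hf.eq_or_lt with h | h
          · exact ⟨f, h.symm⟩
          · obtain ⟨g, _, hg⟩ := exists_rk_eq hZp h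
            exact ⟨g, hg⟩
        obtain ⟨Z', hZ'Z, hZ'p, hst⟩ := exists_stable hsat hZp g
        rw [hg] at hst
        exact ⟨Z', hZ'Z.trans hZ, hZ'p, g, hst⟩)
    refine ⟨g, fun Z hZ hZp => le_antisymm ?_ ?_⟩
    · obtain ⟨n, hn⟩ := exists_pos_inter_of_cover hZp hZ hcov
      rw [← (hA n).2.2 (Z ∩ A n) inter_subset_right hn]
      exact rk_mono hn inter_subset_left g
    · refine le_rk_of_dense hsat hZp α g fun Y' hY' hYp' => ?_
      obtain ⟨n, hn⟩ := exists_pos_inter_of_cover hYp' (hY'.trans hZ) hcov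
      exact ⟨Y' ∩ A n, inter_subset_left, hn, ((hA n).2.2 _ inter_subset_right hn).ge⟩
  classical
  choose! F hF using key
  refine ⟨F, fun α β hαβ hβ => (hF α (hαβ.trans hβ)).lt_of_lt (hF β hβ) hαβ, ?_⟩
  intro g Y' hY' hYp'
  obtain ⟨Z, hZ, hZp, hst⟩ := exists_stable hsat hYp' g
  have hlt : rk W Y' g < height W X := rk_lt_height hY' hYp' g
  refine ⟨Z, hZ, hZp, _, hlt, ?_⟩
  exact hst.eq_of_eq (fun Z' hZ' hp => hF _ hlt Z' (hZ'.trans (hZ.trans hY')) hp)

end Pool.Agent.GU48
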